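import Mathlib

set_option autoImplicit false

/-!
# The relations of the 4-chain link in a preordered group

`K` is a group with a preorder that is invariant under left and right multiplication and has no
torsion in the sense `1 ≤ g ^ n → 1 ≤ g`; the example is a group acting by order automorphisms
on a linear order, with the pointwise preorder.
-/

namespace Pool.Agent.TH744.LS

/-- The meridians `x, T, y, S` (in cyclic order) of the 4-chain link with the commutation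
relations with their longitudes, and the surgery relations for the slopes
`p i / q i`. -/
structure Rel {K : Type*} [Group K] (x T y S : K) (p q : Fin 4 → ℤ) : Prop where
  cT : T * (x * y) = (x * y) * T
  cx : x * (y * T * y⁻¹ * S) = (y * T * y⁻¹ * S) * x
  cy : y * (T * S⁻¹) = (T * S⁻¹) * y
  cS : S * (T⁻¹ * y⁻¹ * T * x) = (T⁻¹ * y⁻¹ * T * x) * S
  sx : x ^ p 0 * (y * T * y⁻¹ * S) ^ q 0 = 1
  sT : T ^ p 1 * (x * y) ^ q 1 = 1
  sy : y ^ p 2 * (T * S⁻¹) ^ q 2 = 1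
  sS : S ^ p 3 * (T⁻¹ * y⁻¹ * T * x) ^ q 3 = 1

section group
variable {K : Type*} [Group K] {x T y S : K} {p q : Fin 4 → ℤ}

theorem Rel.T' (h : Rel x T y S p q) : x⁻¹ * T * x = y * T * y⁻¹ := by
  have h1 := h.cT
  calc x⁻¹ * T * x = x⁻¹ * (T * (x * y)) * y⁻¹ := by group
    _ = x⁻¹ * ((x * y) * T) * y⁻¹ := by rw [h1]
    _ = y * T * y⁻¹ := by group

/-- `m = T S⁻¹` commutes with `y`, so `T` and `S` conjugate `y` in the same way. -/
theorem Rel.conj (h : Rel x T y S p q) : T⁻¹ * y⁻¹ * T = S⁻¹ * y⁻¹ * S := by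
  have h1 := h.cy
  have h2 : y⁻¹ * (T * S⁻¹) = (T * S⁻¹) * y⁻¹ := by
    calc y⁻¹ * (T * S⁻¹) = y⁻¹ * ((T * S⁻¹) * y) * y⁻¹ := by group
      _ = y⁻¹ * (y * (T * S⁻¹)) * y⁻¹ := by rw [h1]
      _ = (T * S⁻¹) * y⁻¹ := by group
  calc T⁻¹ * y⁻¹ * T = T⁻¹ * (y⁻¹ * (T * S⁻¹)) * S := by group
    _ = T⁻¹ * ((T * S⁻¹) * y⁻¹) * S := by rw [h2]
    _ = S⁻¹ * y⁻¹ * S := by group

/-- The longitude of `x` is also `T (x S x⁻¹)`. -/
theorem Rel.lx (h : Rel x T y S p q) : T * (x * S * x⁻¹) = y * T * y⁻¹ * S := by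
  have h1 := h.cx
  calc T * (x * S * x⁻¹) = x * (x⁻¹ * T * x * S) * x⁻¹ := by group
    _ = x * (y * T * y⁻¹ * S) * x⁻¹ := by rw [h.T']
    _ = ((y * T * y⁻¹ * S) * x) * x⁻¹ := by rw [h1]
    _ = y * T * y⁻¹ * S := by group

/-- The symmetry of the link that exchanges `x` and `y`. -/
theorem Rel.swap (h : Rel x T y S p q) :
    Rel y (y * T * y⁻¹) x S⁻¹ (fun i => ![p 2, p 1, p 0, p 3] i)
      (fun i => ![q 2, q 1, q 0, q 3] i) := by
  have hT' := h.T'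
  have hm : x * (y * T * y⁻¹) * x⁻¹ * S⁻¹ = T * S⁻¹ := by rw [← hT']; group
  have hD : (y * T * y⁻¹)⁻¹ * x⁻¹ * (y * T * y⁻¹) * y = (T⁻¹ * y⁻¹ * T * x)⁻¹ := by
    calc (y * T * y⁻¹)⁻¹ * x⁻¹ * (y * T * y⁻¹) * y
        = (x⁻¹ * T * x)⁻¹ * x⁻¹ * (y * T * y⁻¹) * y := by rw [hT']
      _ = (T⁻¹ * y⁻¹ * T * x)⁻¹ := by group
  have hl : y * T * y⁻¹ * S⁻¹⁻¹ = y * T * y⁻¹ * S := by rw [inv_inv]
  refine ⟨?_, ?_, ?_, ?_, ?_, ?_, ?_, ?_⟩
  · calc y * T * y⁻¹ * (y * x) = (y * T * y⁻¹) * y * x := by group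
      _ = y * (T * (x * y)) * y⁻¹ := by
          have : y * T * y⁻¹ * y * x = y * (T * (x * y)) * y⁻¹ := by group
          exact this
      _ = y * ((x * y) * T) * y⁻¹ := by rw [h.cT]
      _ = y * x * (y * T * y⁻¹) := by group
  · rw [hm]; exact h.cy
  · rw [hl]; exact h.cx
  · rw [hD]
    have h1 := h.cS
    generalize T⁻¹ * y⁻¹ * T * x = D at h1 ⊢
    calc S⁻¹ * D⁻¹ = (D * S)⁻¹ := by group
      _ = (S * D)⁻¹ := by rw [h1]
      _ = D⁻¹ * S⁻¹ := by group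
  · rw [hm]; exact h.sy
  · have h1 := h.sT
    show (y * T * y⁻¹) ^ p 1 * (y * x) ^ q 1 = 1
    have e : y * x = y * (x * y) * y⁻¹ := by group
    rw [e, conj_zpow, conj_zpow]
    calc y * T ^ p 1 * y⁻¹ * (y * (x * y) ^ q 1 * y⁻¹)
        = y * (T ^ p 1 * (x * y) ^ q 1) * y⁻¹ := by group
      _ = 1 := by rw [h1]; group
  · rw [hl]; exact h.sx
  · rw [hD]
    have h1 := h.sS
    have h2 : Commute S (T⁻¹ * y⁻¹ * T * x) := h.cS
    show S⁻¹ ^ p 3 * ((T⁻¹ * y⁻¹ * T * x)⁻¹) ^ q 3 = 1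
    generalize T⁻¹ * y⁻¹ * T * x = D at h1 h2 ⊢
    rw [inv_zpow, inv_zpow, ← mul_inv_rev, ← (h2.zpow_zpow (p 3) (q 3)).eq, h1, inv_one]

end group

section ord
set_option linter.unusedSectionVars false

variable {K : Type*} [Group K] [Preorder K] [MulLeftMono K] [MulRightMono K]

/-- No torsion: a root of a positive element is positive. -/
def Root (K : Type*) [Group K] [Preorder K] : Prop :=
  ∀ (g : K) (n : ℕ), 0 < n → 1 ≤ g ^ n → 1 ≤ g

theorem Root.z (hR : Root K) {g : K} {n : ℤ} (hn : 1 ≤ n) (h : 1 ≤ g ^ n) : 1 ≤ g := by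
  obtain ⟨k, rfl⟩ := Int.eq_ofNat_of_zero_le (show 0 ≤ n by omega)
  refine hR g k (by omega) ?_
  rwa [zpow_natCast] at h

theorem zpow_ge {g : K} (hg : 1 ≤ g) {n : ℤ} (hn : 0 ≤ n) : 1 ≤ g ^ n := by
  obtain ⟨k, rfl⟩ := Int.eq_ofNat_of_zero_le hn
  rw [zpow_natCast]
  exact one_le_pow_of_one_le' hg k

theorem zpow_mono' {a b : K} (hab : a ≤ b) {n : ℤ} (hn : 0 ≤ n) : a ^ n ≤ b ^ n := by
  obtain ⟨k, rfl⟩ := Int.eq_ofNat_of_zero_le hn
  rw [zpow_natCast, zpow_natCast]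
  exact pow_le_pow_left' hab k

theorem conj_ge {g : K} (a : K) (hg : 1 ≤ g) : 1 ≤ a * g * a⁻¹ := by
  calc (1 : K) = a * 1 * a⁻¹ := by group
    _ ≤ a * g * a⁻¹ := mul_le_mul' (mul_le_mul' le_rfl hg) le_rfl

theorem inv_ge {g : K} (hg : g ≤ 1) : 1 ≤ g⁻¹ := by
  calc (1 : K) = g⁻¹ * g := by group
    _ ≤ g⁻¹ * 1 := mul_le_mul' le_rfl hg
    _ = g⁻¹ := by group

theorem inv_le {g : K} (hg : 1 ≤ g) : g⁻¹ ≤ 1 := by
  calc g⁻¹ = g⁻¹ * 1 := by group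
    _ ≤ g⁻¹ * g := mul_le_mul' le_rfl hg
    _ = 1 := by group

theorem slope_le (hR : Root K) {x l : K} (hc : Commute x l) {p q n : ℤ} (hq : 1 ≤ q)
    (hp : -(n * q) ≤ p) (hr : x ^ p * l ^ q = 1) (hx : 1 ≤ x) : l ≤ x ^ n := by
  have h1 : 1 ≤ x ^ n * l⁻¹ := by
    refine hR.z hq ?_
    have h2 : Commute (x ^ n) l⁻¹ := (hc.zpow_left n).inv_right
    rw [h2.mul_zpow, ← zpow_mul, inv_zpow, ← eq_inv_of_mul_eq_one_left hr, ← zpow_add]
    exact zpow_ge hx (by linarith)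
  calc l = 1 * l := by group
    _ ≤ (x ^ n * l⁻¹) * l := mul_le_mul' h1 le_rfl
    _ = x ^ n := by group

theorem slope_ge (hR : Root K) {y m : K} (hc : Commute y m) {p q n : ℤ} (hq : 1 ≤ q)
    (hp : -(n * q) ≤ p) (hr : y ^ p * m ^ q = 1) (hy : y ≤ 1) : y ^ n ≤ m := by
  have h0 : (y⁻¹) ^ p * (m⁻¹) ^ q = 1 := by
    rw [inv_zpow, inv_zpow, ← mul_inv_rev, ← (hc.zpow_zpow p q).eq, hr, inv_one]
  have h1 := slope_le hR (hc.inv_inv) hq hp h0 (inv_ge hy)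
  calc y ^ n = y ^ n * (m⁻¹ * m) := by group
    _ ≤ y ^ n * ((y⁻¹) ^ n * m) := mul_le_mul' le_rfl (mul_le_mul' h1 le_rfl)
    _ = m := by rw [inv_zpow]; group

/-- For negative slopes the meridian and the longitude have the same direction. -/
theorem dir_up (hR : Root K) {x l : K} {p q : ℤ} (hq : 0 ≤ q)
    (hp : p < 0) (hr : x ^ p * l ^ q = 1) (hl : 1 ≤ l) : 1 ≤ x := by
  refine hR.z (n := -p) (by omega) ?_
  have : x ^ (-p) = l ^ q := by
    rw [zpow_neg]; exact (eq_inv_of_mul_eq_one_right hr).symm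
  rw [this]; exact zpow_ge hl hq

theorem dir_up' (hR : Root K) {x l : K} {p q : ℤ} (hq : 1 ≤ q)
    (hp : p < 0) (hr : x ^ p * l ^ q = 1) (hx : 1 ≤ x) : 1 ≤ l := by
  refine hR.z (n := q) hq ?_
  have : x ^ (-p) = l ^ q := by
    rw [zpow_neg]; exact (eq_inv_of_mul_eq_one_right hr).symm
  rw [← this]; exact zpow_ge hx (by omega)

theorem dir_down' (hR : Root K) {x l : K} {p q : ℤ} (hc : Commute x l) (hq : 1 ≤ q)
    (hp : p < 0) (hr : x ^ p * l ^ q = 1) (hx : x ≤ 1) : l ≤ 1 := by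
  have h0 : (x⁻¹) ^ p * (l⁻¹) ^ q = 1 := by
    rw [inv_zpow, inv_zpow, ← mul_inv_rev, ← (hc.zpow_zpow p q).eq, hr, inv_one]
  have h1 := dir_up' hR hq hp h0 (inv_ge hx)
  calc l = l * 1 := by group
    _ ≤ l * l⁻¹ := mul_le_mul' le_rfl h1
    _ = 1 := by group

end ord

/-- The slope conditions: `r₁, r₂` (slopes of `x, y`) are at least `-1`, the other two are
negative, and one of `(A)`, `(B)`, `(C)` holds. -/
structure Cond (p q : Fin 4 → ℤ) : Prop where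
  hq : ∀ i, 1 ≤ q i
  h0 : - q 0 ≤ p 0
  h2 : - q 2 ≤ p 2
  h1 : p 1 < 0
  h3 : p 3 < 0
  alt : (0 ≤ p 0 ∧ 0 ≤ p 2) ∨ (- q 1 ≤ p 1 ∧
    (0 ≤ p 2 ∧ q 0 * q 2 ≤ (p 0 + q 0) * (p 2 + q 2) ∨
      - q 3 ≤ p 3 ∨ ∃ n : ℤ, 2 ≤ n ∧ (n - 2) * q 2 ≤ p 2 ∧ -(n * q 3) ≤ p 3))

section main
variable {K : Type*} [Group K] [Preorder K] [MulLeftMono K] [MulRightMono K]
variable {x T y S : K} {p q : Fin 4 → ℤ}

/-- `x` and `y` do not both move up. -/
theorem upup (hR : Root K) (h : Rel x T y S p q) (c : Cond p q) (hx : 1 ≤ x) (hy : 1 ≤ y)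
    (hx' : ¬ x ≤ 1) (hy' : ¬ y ≤ 1) : False := by
  have hz : 1 ≤ x * y := by
    calc (1 : K) = 1 * 1 := by group
      _ ≤ x * y := mul_le_mul' hx hy
  have hT : 1 ≤ T := dir_up hR (by linarith [c.hq 1]) c.h1 h.sT hz
  rcases c.alt with ⟨c0, c2⟩ | ⟨c1, -⟩
  · have hl : y * T * y⁻¹ * S ≤ x ^ (0 : ℤ) :=
      slope_le hR h.cx (c.hq 0) (by linarith) h.sx hx
    have hm : T * S⁻¹ ≤ y ^ (0 : ℤ) :=
      slope_le hR h.cy (c.hq 2) (by linarith) h.sy hy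
    rw [zpow_zero] at hl hm
    have h1 : T ≤ S := by
      calc T = T * S⁻¹ * S := by group
        _ ≤ 1 * S := mul_le_mul' hm le_rfl
        _ = S := by group
    have h2 : S ≤ (y * T * y⁻¹)⁻¹ := by
      calc S = (y * T * y⁻¹)⁻¹ * (y * T * y⁻¹ * S) := by group
        _ ≤ (y * T * y⁻¹)⁻¹ * 1 := mul_le_mul' le_rfl hl
        _ = (y * T * y⁻¹)⁻¹ := by group
    have h3 : (y * T * y⁻¹)⁻¹ ≤ 1 := inv_le (conj_ge y hT)
    have h4 : T ≤ 1 := h1.trans (h2.trans h3)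
    have h5 : x * y ≤ 1 := dir_down' hR h.cT (c.hq 1) c.h1 h.sT h4
    refine hx' ?_
    calc x = x * 1 := by group
      _ ≤ x * y := mul_le_mul' le_rfl hy
      _ ≤ 1 := h5
  · have hl : y * T * y⁻¹ * S ≤ x ^ (1 : ℤ) :=
      slope_le hR h.cx (c.hq 0) (by linarith [c.h0]) h.sx hx
    have hm : T * S⁻¹ ≤ y ^ (1 : ℤ) :=
      slope_le hR h.cy (c.hq 2) (by linarith [c.h2]) h.sy hy
    have hzT : x * y ≤ T ^ (1 : ℤ) :=
      slope_le hR h.cT (c.hq 1) (by linarith) h.sT hT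
    rw [zpow_one] at hl hm hzT
    have h1 : y * x ≤ y * T * y⁻¹ := by
      calc y * x = y * (x * y) * y⁻¹ := by group
        _ ≤ y * T * y⁻¹ := mul_le_mul' (mul_le_mul' le_rfl hzT) le_rfl
    have h2 : S ≤ x⁻¹ * y⁻¹ * x := by
      calc S = (x⁻¹ * y⁻¹) * ((y * x) * S) := by group
        _ ≤ (x⁻¹ * y⁻¹) * ((y * T * y⁻¹) * S) :=
          mul_le_mul' le_rfl (mul_le_mul' h1 le_rfl)
        _ ≤ (x⁻¹ * y⁻¹) * x := mul_le_mul' le_rfl hl
    have h3 : S⁻¹ ≤ y⁻¹ * x⁻¹ * y := by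
      calc S⁻¹ = (y⁻¹ * x⁻¹) * ((x * y) * S⁻¹) := by group
        _ ≤ (y⁻¹ * x⁻¹) * (T * S⁻¹) := mul_le_mul' le_rfl (mul_le_mul' hzT le_rfl)
        _ ≤ (y⁻¹ * x⁻¹) * y := mul_le_mul' le_rfl hm
    have h4 : S⁻¹ ≤ 1 := by
      refine h3.trans ?_
      calc y⁻¹ * x⁻¹ * y ≤ y⁻¹ * 1 * y := mul_le_mul' (mul_le_mul' le_rfl (inv_le hx)) le_rfl
        _ = 1 := by group
    have h5 : 1 ≤ x⁻¹ * y⁻¹ * x := by
      refine le_trans ?_ h2
      have := inv_ge h4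
      rwa [inv_inv] at this
    refine hy' ?_
    calc y = x * 1 * x⁻¹ * y := by group
      _ ≤ x * (x⁻¹ * y⁻¹ * x) * x⁻¹ * y :=
        mul_le_mul' (mul_le_mul' (mul_le_mul' le_rfl h5) le_rfl) le_rfl
      _ = 1 := by group

/-- If `x` moves up and `y` moves down then `S ≤ 1` is impossible. -/
theorem updown_aux (hR : Root K) (h : Rel x T y S p q) (c : Cond p q) (hy : y ≤ 1)
    (hx' : ¬ x ≤ 1) (hS : S ≤ 1) : False := by
  have h5 : T⁻¹ * y⁻¹ * T * x ≤ 1 := dir_down' hR h.cS (c.hq 3) c.h3 h.sS hS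
  refine hx' ?_
  calc x = T⁻¹ * 1 * T * x := by group
    _ ≤ T⁻¹ * y⁻¹ * T * x :=
      mul_le_mul' (mul_le_mul' (mul_le_mul' le_rfl (inv_ge hy)) le_rfl) le_rfl
    _ ≤ 1 := h5

/-- `x` does not move up while `y` moves down. -/
theorem updown (hR : Root K) (h : Rel x T y S p q) (c : Cond p q) (hx : 1 ≤ x) (hy : y ≤ 1)
    (hx' : ¬ x ≤ 1) : False := by
  have hY : 1 ≤ y⁻¹ := inv_ge hy
  have hxD : x ≤ T⁻¹ * y⁻¹ * T * x := by
    calc x = T⁻¹ * 1 * T * x := by group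
      _ ≤ T⁻¹ * y⁻¹ * T * x := mul_le_mul' (mul_le_mul' (mul_le_mul' le_rfl hY) le_rfl) le_rfl
  have hS : 1 ≤ S := dir_up hR (by linarith [c.hq 3]) c.h3 h.sS (hx.trans hxD)
  have hS1 : 1 ≤ x * S * x⁻¹ := conj_ge x hS
  have hlx := h.lx
  refine updown_aux hR h c hy hx' ?_
  rcases c.alt with ⟨c0, c2⟩ | ⟨c1, ⟨c2, cB⟩ | c3 | ⟨n, hn, hn2, hn3⟩⟩
  · -- case A
    have hl : y * T * y⁻¹ * S ≤ x ^ (0 : ℤ) :=
      slope_le hR h.cx (c.hq 0) (by linarith) h.sx hx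
    have hm : y ^ (0 : ℤ) ≤ T * S⁻¹ :=
      slope_ge hR h.cy (c.hq 2) (by linarith) h.sy hy
    rw [zpow_zero] at hl hm
    have h1 : S ≤ T := by
      calc S = 1 * S := by group
        _ ≤ T * S⁻¹ * S := mul_le_mul' hm le_rfl
        _ = T := by group
    calc S = 1 * S := by group
      _ ≤ y * T * y⁻¹ * S := mul_le_mul' (conj_ge y (hS.trans h1)) le_rfl
      _ ≤ 1 := hl
  · -- case B
    have hm : y ^ (0 : ℤ) ≤ T * S⁻¹ :=
      slope_ge hR h.cy (c.hq 2) (by linarith) h.sy hy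
    rw [zpow_zero] at hm
    have h1 : S ≤ T := by
      calc S = 1 * S := by group
        _ ≤ T * S⁻¹ * S := mul_le_mul' hm le_rfl
        _ = T := by group
    have hT : 1 ≤ T := hS.trans h1
    have hzT : x * y ≤ T ^ (1 : ℤ) :=
      slope_le hR h.cT (c.hq 1) (by linarith) h.sT hT
    rw [zpow_one] at hzT
    have hTl : T ≤ y * T * y⁻¹ * S := by
      calc T = T * 1 := by group
        _ ≤ T * (x * S * x⁻¹) := mul_le_mul' le_rfl hS1
        _ = y * T * y⁻¹ * S := hlx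
    have hcx : Commute x (y * T * y⁻¹ * S) := h.cx
    have hsx := h.sx
    have hme : T * S⁻¹ * (S * (x * S * x⁻¹)) = y * T * y⁻¹ * S := by
      rw [← hlx]; group
    have he : 1 ≤ S * (x * S * x⁻¹) := by
      calc (1 : K) = 1 * 1 := by group
        _ ≤ S * (x * S * x⁻¹) := mul_le_mul' hS hS1
    have hSe : S ≤ S * (x * S * x⁻¹) := by
      calc S = S * 1 := by group
        _ ≤ S * (x * S * x⁻¹) := mul_le_mul' le_rfl hS1
    refine hSe.trans ?_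
    have hsy := h.sy
    generalize S * (x * S * x⁻¹) = e at he hme
    generalize y * T * y⁻¹ * S = l at hTl hcx hme hsx
    generalize T * S⁻¹ = m at hme hsy
    have hv : x * l⁻¹ ≤ y⁻¹ := by
      calc x * l⁻¹ = l⁻¹ * x := hcx.inv_right.eq
        _ = l⁻¹ * (x * y) * y⁻¹ := by group
        _ ≤ l⁻¹ * l * y⁻¹ := mul_le_mul' (mul_le_mul' le_rfl (hzT.trans hTl)) le_rfl
        _ = y⁻¹ := by group
    have hml : m ≤ l := by
      calc m = m * 1 := by group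
        _ ≤ m * e := mul_le_mul' le_rfl he
        _ = l := hme
    have hmt : m ^ q 2 ≤ l ^ q 2 * e⁻¹ := by
      have e1 : m ^ q 2 = m ^ (q 2 - 1) * m := by
        rw [← zpow_add_one]; congr 1; ring
      have e2 : l ^ q 2 = l ^ (q 2 - 1) * l := by
        rw [← zpow_add_one]; congr 1; ring
      calc m ^ q 2 = m ^ (q 2 - 1) * m := e1
        _ ≤ l ^ (q 2 - 1) * m := mul_le_mul' (zpow_mono' hml (by linarith [c.hq 2])) le_rfl
        _ = l ^ (q 2 - 1) * (m * e) * e⁻¹ := by group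
        _ = l ^ q 2 * e⁻¹ := by rw [hme, e2]
    have hmY : m ^ q 2 = y⁻¹ ^ p 2 := by
      rw [inv_zpow]; exact eq_inv_of_mul_eq_one_right hsy
    have hvs : (x * l⁻¹) ^ p 2 ≤ l ^ q 2 * e⁻¹ := by
      calc (x * l⁻¹) ^ p 2 ≤ y⁻¹ ^ p 2 := zpow_mono' hv c2
        _ = m ^ q 2 := hmY.symm
        _ ≤ l ^ q 2 * e⁻¹ := hmt
    have hew : e ≤ (x * l⁻¹) ^ (- p 2) * l ^ q 2 := by
      calc e = (x * l⁻¹) ^ (- p 2) * ((x * l⁻¹) ^ p 2) * e := by
            rw [← zpow_add, neg_add_cancel, zpow_zero, one_mul]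
        _ ≤ (x * l⁻¹) ^ (- p 2) * (l ^ q 2 * e⁻¹) * e :=
          mul_le_mul' (mul_le_mul' le_rfl hvs) le_rfl
        _ = (x * l⁻¹) ^ (- p 2) * l ^ q 2 := by group
    refine hew.trans ?_
    -- `w⁻¹ ^ q 0` is a nonnegative power of `x`
    have hw : 1 ≤ ((x * l⁻¹) ^ (- p 2) * l ^ q 2)⁻¹ := by
      refine hR.z (c.hq 0) ?_
      have e1 : (x * l⁻¹) ^ (- p 2) * l ^ q 2 = x ^ (- p 2) * l ^ (p 2 + q 2) := by
        rw [hcx.inv_right.mul_zpow, inv_zpow, zpow_neg l, inv_inv, mul_assoc, ← zpow_add]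
      have e2 : l ^ q 0 = x ^ (- p 0) := by
        rw [zpow_neg]; exact eq_inv_of_mul_eq_one_right hsx
      have e3 : ((x ^ (- p 2) * l ^ (p 2 + q 2))⁻¹) ^ q 0
          = x ^ ((p 0 + q 0) * (p 2 + q 2) - q 0 * q 2) := by
        rw [inv_zpow, (hcx.zpow_zpow _ _).mul_zpow, ← zpow_mul, ← zpow_mul,
          mul_comm (p 2 + q 2) (q 0), zpow_mul l, e2, ← zpow_mul, ← zpow_add, ← zpow_neg]
        congr 1; ring
      rw [e1, e3]
      exact zpow_ge hx (by linarith)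
    have := inv_le hw
    rwa [inv_inv] at this
  · -- case C1
    have hDS : T⁻¹ * y⁻¹ * T * x ≤ S ^ (1 : ℤ) :=
      slope_le hR h.cS (c.hq 3) (by linarith) h.sS hS
    have hl : y * T * y⁻¹ * S ≤ x ^ (1 : ℤ) :=
      slope_le hR h.cx (c.hq 0) (by linarith [c.h0]) h.sx hx
    have hm : y ^ (1 : ℤ) ≤ T * S⁻¹ :=
      slope_ge hR h.cy (c.hq 2) (by linarith [c.h2]) h.sy hy
    rw [zpow_one] at hDS hl hm
    have h1 : y * T * y⁻¹ ≤ 1 := by
      calc y * T * y⁻¹ = y * T * y⁻¹ * S * S⁻¹ := by group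
        _ ≤ x * S⁻¹ := mul_le_mul' hl le_rfl
        _ ≤ S * S⁻¹ := mul_le_mul' (hxD.trans hDS) le_rfl
        _ = 1 := by group
    have hT : T ≤ 1 := by
      calc T = y⁻¹ * (y * T * y⁻¹) * y := by group
        _ ≤ y⁻¹ * 1 * y := mul_le_mul' (mul_le_mul' le_rfl h1) le_rfl
        _ = 1 := by group
    have hTz : T ^ (1 : ℤ) ≤ x * y :=
      slope_ge hR h.cT (c.hq 1) (by linarith) h.sT hT
    have hz : x * y ≤ 1 := dir_down' hR h.cT (c.hq 1) c.h1 h.sT hT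
    rw [zpow_one] at hTz
    have h2 : y * S ≤ x * y := by
      calc y * S ≤ T * S⁻¹ * S := mul_le_mul' hm le_rfl
        _ = T := by group
        _ ≤ x * y := hTz
    have hDS' : S⁻¹ * y⁻¹ * S * x ≤ S := by rw [← h.conj]; exact hDS
    have h3 : S * x ≤ y * S * S := by
      calc S * x = y * S * (S⁻¹ * y⁻¹ * S * x) := by group
        _ ≤ y * S * S := mul_le_mul' le_rfl hDS'
    have h4 : S * x ≤ x := by
      calc S * x ≤ y * S * S := h3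
        _ ≤ x * y * S := mul_le_mul' h2 le_rfl
        _ = x * (y * S) := by group
        _ ≤ x * (x * y) := mul_le_mul' le_rfl h2
        _ ≤ x * 1 := mul_le_mul' le_rfl hz
        _ = x := by group
    calc S = S * x * x⁻¹ := by group
      _ ≤ x * x⁻¹ := mul_le_mul' h4 le_rfl
      _ = 1 := by group
  · -- case Cn
    have hm : y ^ (-(n - 2)) ≤ T * S⁻¹ :=
      slope_ge hR h.cy (c.hq 2) (by linarith) h.sy hy
    have hYk : y ^ (-(n - 2)) = y⁻¹ ^ (n - 2) := by rw [inv_zpow, zpow_neg]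
    have hY1 : 1 ≤ y⁻¹ ^ (n - 2) := zpow_ge hY (by omega)
    rw [hYk] at hm
    have h1 : y⁻¹ ^ (n - 2) * S ≤ T := by
      calc y⁻¹ ^ (n - 2) * S ≤ T * S⁻¹ * S := mul_le_mul' hm le_rfl
        _ = T := by group
    have hT : 1 ≤ T := by
      refine le_trans ?_ h1
      calc (1 : K) = 1 * 1 := by group
        _ ≤ y⁻¹ ^ (n - 2) * S := mul_le_mul' hY1 hS
    have hzT : x * y ≤ T ^ (1 : ℤ) :=
      slope_le hR h.cT (c.hq 1) (by linarith) h.sT hT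
    have hl : y * T * y⁻¹ * S ≤ x ^ (1 : ℤ) :=
      slope_le hR h.cx (c.hq 0) (by linarith [c.h0]) h.sx hx
    rw [zpow_one] at hzT hl
    rw [← hlx] at hl
    have hDS : T⁻¹ * y⁻¹ * T * x ≤ S ^ n :=
      slope_le hR h.cS (c.hq 3) (by linarith) h.sS hS
    have h2 : x * S * x⁻¹ ≤ y⁻¹ := by
      calc x * S * x⁻¹ = y⁻¹ * x⁻¹ * (x * y * (x * S * x⁻¹)) := by group
        _ ≤ y⁻¹ * x⁻¹ * (T * (x * S * x⁻¹)) :=
          mul_le_mul' le_rfl (mul_le_mul' hzT le_rfl)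
        _ ≤ y⁻¹ * x⁻¹ * x := mul_le_mul' le_rfl hl
        _ = y⁻¹ := by group
    have h3 : y⁻¹ ^ (n - 2) * S * (x * S * x⁻¹) ≤ x :=
      (mul_le_mul' h1 le_rfl).trans hl
    have h4 : x ≤ S ^ n := hxD.trans hDS
    have h5 : x ≤ (x * S * x⁻¹) ^ n := by
      calc x = x * x * x⁻¹ := by group
        _ ≤ x * S ^ n * x⁻¹ := mul_le_mul' (mul_le_mul' le_rfl h4) le_rfl
        _ = (x * S * x⁻¹) ^ n := conj_zpow.symm
    have h6 : S ≤ x * S * x⁻¹ := by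
      have e1 : (x * S * x⁻¹) ^ n
          = (x * S * x⁻¹) ^ (n - 2) * (x * S * x⁻¹) * (x * S * x⁻¹) := by
        rw [← zpow_add_one, ← zpow_add_one]; congr 1; ring
      have e2 : (x * S * x⁻¹) ^ (n - 2) * S * (x * S * x⁻¹)
          ≤ (x * S * x⁻¹) ^ (n - 2) * (x * S * x⁻¹) * (x * S * x⁻¹) := by
        rw [← e1]
        refine le_trans ?_ (h3.trans h5)
        exact mul_le_mul' (mul_le_mul' (zpow_mono' h2 (by omega)) le_rfl) le_rfl
      generalize x * S * x⁻¹ = S1 at e2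
      calc S = (S1 ^ (n - 2))⁻¹ * (S1 ^ (n - 2) * S * S1) * S1⁻¹ := by group
        _ ≤ (S1 ^ (n - 2))⁻¹ * (S1 ^ (n - 2) * S1 * S1) * S1⁻¹ :=
          mul_le_mul' (mul_le_mul' le_rfl e2) le_rfl
        _ = S1 := by group
    have h7 : S ≤ y⁻¹ := h6.trans h2
    have hDS' : S⁻¹ * y⁻¹ * S * x ≤ S ^ n := by rw [← h.conj]; exact hDS
    have h8 : S * S * (S ^ (n - 2) * S * S) ≤ S * S ^ n := by
      calc S * S * (S ^ (n - 2) * S * S)
          ≤ y⁻¹ * S * (y⁻¹ ^ (n - 2) * S * (x * S * x⁻¹)) :=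
            mul_le_mul' (mul_le_mul' h7 le_rfl)
              (mul_le_mul' (mul_le_mul' (zpow_mono' h7 (by omega)) le_rfl) h6)
        _ ≤ y⁻¹ * S * x := mul_le_mul' le_rfl h3
        _ = S * (S⁻¹ * y⁻¹ * S * x) := by group
        _ ≤ S * S ^ n := mul_le_mul' le_rfl hDS'
    have h9 : S * S * (S ^ (n - 2) * S * S) = S * (S * S ^ n) := by
      have : S ^ n = S ^ (n - 2) * S * S := by
        rw [← zpow_add_one, ← zpow_add_one]; congr 1; ring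
      rw [← this]; group
    rw [h9] at h8
    calc S = S⁻¹ * (S * (S * S ^ n)) * (S ^ n)⁻¹ := by group
      _ ≤ S⁻¹ * (S * S ^ n) * (S ^ n)⁻¹ := mul_le_mul' (mul_le_mul' le_rfl h8) le_rfl
      _ = 1 := by group

end main

end Pool.Agent.TH744.LS
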