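import Pool.Agent.TH744.LS.Alg
import Pool.Agent.W705.BorrGroup

set_option autoImplicit false

/-!
# Order preserving actions of groups with the relations of the 4-chain link
-/

set_option linter.unusedSectionVars false

namespace Pool.Agent.TH744.LS

/-- The group acts by strictly increasing maps. -/
def Mono (G X : Type*) [Group G] [LinearOrder X] [MulAction G X] : Prop :=
  ∀ (g : G) (u v : X), u < v → g • u < g • v

section pt
variable {G X : Type*} [Group G] [LinearOrder X] [MulAction G X]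

theorem Mono.dual (hm : Mono G X) : Mono G Xᵒᵈ := fun g _ _ h => hm g _ _ h

theorem Mono.lt (hm : Mono G X) (g : G) {u v : X} : g • u < g • v ↔ u < v := by
  refine ⟨fun h => ?_, fun h => hm g u v h⟩
  have := hm g⁻¹ _ _ h
  rwa [inv_smul_smul, inv_smul_smul] at this

theorem Mono.le (hm : Mono G X) (g : G) {u v : X} : g • u ≤ g • v ↔ u ≤ v := by
  rw [← not_lt, ← not_lt, hm.lt]

theorem Mono.pow_le (hm : Mono G X) {g : G} {f : X} (h : f ≤ g • f) (n : ℕ) :
    f ≤ g ^ n • f := by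
  induction n with
  | zero => simp
  | succ n ih =>
    rw [pow_succ', mul_smul]
    exact h.trans ((hm.le g).mpr ih)

theorem Mono.pow_lt (hm : Mono G X) {g : G} {f : X} (h : f < g • f) {n : ℕ} (hn : 1 ≤ n) :
    f < g ^ n • f := by
  obtain ⟨k, rfl⟩ := Nat.exists_eq_add_of_le' hn
  rw [pow_succ', mul_smul]
  exact lt_of_lt_of_le h ((hm.le g).mpr (hm.pow_le h.le k))

theorem Mono.root_le (hm : Mono G X) {g : G} {f : X} {n : ℕ} (hn : 1 ≤ n)
    (h : f ≤ g ^ n • f) : f ≤ g • f := by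
  by_contra hc
  rw [not_le] at hc
  have h1 : g ^ n • f < f := Mono.pow_lt (X := Xᵒᵈ) hm.dual (g := g) (f := f) hc hn
  exact absurd h (not_le.mpr h1)

theorem Mono.root_lt (hm : Mono G X) {g : G} {f : X} {n : ℕ}
    (h : f < g ^ n • f) : f < g • f := by
  by_contra hc
  rw [not_lt] at hc
  have h1 : g ^ n • f ≤ f := Mono.pow_le (X := Xᵒᵈ) hm.dual (g := g) (f := f) hc n
  exact absurd h (not_lt.mpr h1)

theorem Mono.root_fix (hm : Mono G X) {g : G} {f : X} {n : ℕ} (hn : 1 ≤ n)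
    (h : g ^ n • f = f) : g • f = f :=
  le_antisymm (Mono.root_le (X := Xᵒᵈ) hm.dual (g := g) (f := f) hn h.le)
    (hm.root_le hn h.ge)

theorem Mono.zpow_le (hm : Mono G X) {g : G} {f : X} (h : f ≤ g • f) {n : ℤ} (hn : 0 ≤ n) :
    f ≤ g ^ n • f := by
  obtain ⟨k, rfl⟩ := Int.eq_ofNat_of_zero_le hn
  rw [zpow_natCast]; exact hm.pow_le h k

theorem Mono.zpow_lt (hm : Mono G X) {g : G} {f : X} (h : f < g • f) {n : ℤ} (hn : 1 ≤ n) :
    f < g ^ n • f := by
  obtain ⟨k, rfl⟩ := Int.eq_ofNat_of_zero_le (show 0 ≤ n by omega)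
  rw [zpow_natCast]; exact hm.pow_lt h (by omega)

theorem Mono.zroot_le (hm : Mono G X) {g : G} {f : X} {n : ℤ} (hn : 1 ≤ n)
    (h : f ≤ g ^ n • f) : f ≤ g • f := by
  obtain ⟨k, rfl⟩ := Int.eq_ofNat_of_zero_le (show 0 ≤ n by omega)
  rw [zpow_natCast] at h; exact hm.root_le (by omega) h

theorem Mono.zroot_lt (hm : Mono G X) {g : G} {f : X} {n : ℤ} (hn : 0 ≤ n)
    (h : f < g ^ n • f) : f < g • f := by
  obtain ⟨k, rfl⟩ := Int.eq_ofNat_of_zero_le hn
  rw [zpow_natCast] at h; exact hm.root_lt h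

theorem Mono.zroot_fix (hm : Mono G X) {g : G} {f : X} {n : ℤ} (hn : 1 ≤ n)
    (h : g ^ n • f = f) : g • f = f := by
  obtain ⟨k, rfl⟩ := Int.eq_ofNat_of_zero_le (show 0 ≤ n by omega)
  rw [zpow_natCast] at h; exact hm.root_fix (by omega) h

theorem inv_fix {g : G} {f : X} (h : g • f = f) : g⁻¹ • f = f := by
  rw [inv_smul_eq_iff]; exact h.symm

theorem zpow_fix {g : G} {f : X} (h : g • f = f) (n : ℤ) : g ^ n • f = f := by
  have h1 : g ∈ MulAction.stabilizer G f := h
  exact (MulAction.stabilizer G f).zpow_mem h1 n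

/-- The slope inequality at a point. -/
theorem Mono.slope_pt (hm : Mono G X) {x l : G} (hc : Commute x l) {p q n : ℤ} (hq : 1 ≤ q)
    (hp : -(n * q) ≤ p) (hr : x ^ p * l ^ q = 1) {f : X} (hf : f ≤ x • f) :
    l • f ≤ x ^ n • f := by
  have h2 : Commute (x ^ n) l⁻¹ := (hc.zpow_left n).inv_right
  have h1 : f ≤ (x ^ n * l⁻¹) • f := by
    refine hm.zroot_le hq ?_
    rw [h2.mul_zpow, ← zpow_mul, inv_zpow, ← eq_inv_of_mul_eq_one_left hr, ← zpow_add]
    exact hm.zpow_le hf (by linarith)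
  rw [h2.eq, mul_smul] at h1
  have h3 := (hm.le l).mpr h1
  rwa [smul_inv_smul] at h3

/-- The longitude fixes the fixed points of the meridian. -/
theorem Mono.fix_long (hm : Mono G X) {x l : G} {p q : ℤ} (hq : 1 ≤ q)
    (hr : x ^ p * l ^ q = 1) {f : X} (hf : x • f = f) : l • f = f := by
  refine hm.zroot_fix hq ?_
  rw [← inv_eq_of_mul_eq_one_right hr]
  exact inv_fix (zpow_fix hf p)

/-- Negative slope: the meridian moves up where the longitude does. -/
theorem Mono.up_of_long (hm : Mono G X) {x l : G} {p q : ℤ} (hq : 1 ≤ q) (hp : p < 0)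
    (hr : x ^ p * l ^ q = 1) {f : X} (hf : f < l • f) : f < x • f := by
  refine hm.zroot_lt (n := -p) (by omega) ?_
  have : x ^ (-p) = l ^ q := by
    rw [zpow_neg]; exact (eq_inv_of_mul_eq_one_right hr).symm
  rw [this]; exact hm.zpow_lt hf hq

theorem Mono.fix_mer (hm : Mono G X) {x l : G} {p q : ℤ} (hp : p < 0)
    (hr : x ^ p * l ^ q = 1) {f : X} (hf : l • f = f) : x • f = f := by
  refine hm.zroot_fix (n := -p) (by omega) ?_
  have : x ^ (-p) = l ^ q := by
    rw [zpow_neg]; exact (eq_inv_of_mul_eq_one_right hr).symm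
  rw [this]; exact zpow_fix hf q

/-- The part of the slope conditions used for the fixed points. -/
structure FCond (p q : Fin 4 → ℤ) : Prop where
  hq : ∀ i, 1 ≤ q i
  h0 : - q 0 ≤ p 0
  h2 : - q 2 ≤ p 2
  h1 : p 1 < 0
  h3 : p 3 < 0
  alt : (0 ≤ p 0 ∧ 0 ≤ p 2) ∨ - q 1 ≤ p 1

theorem Cond.fcond {p q : Fin 4 → ℤ} (c : Cond p q) : FCond p q :=
  ⟨c.hq, c.h0, c.h2, c.h1, c.h3, c.alt.imp_right And.left⟩

theorem FCond.swap {p q : Fin 4 → ℤ} (c : FCond p q) :
    FCond (fun i => ![p 2, p 1, p 0, p 3] i) (fun i => ![q 2, q 1, q 0, q 3] i) := by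
  refine ⟨?_, c.h2, c.h0, c.h1, c.h3, ?_⟩
  · intro i; fin_cases i
    · exact c.hq 2
    · exact c.hq 1
    · exact c.hq 0
    · exact c.hq 3
  · rcases c.alt with ⟨a, b⟩ | a
    · exact Or.inl ⟨b, a⟩
    · exact Or.inr a

variable {x T y S : G} {p q : Fin 4 → ℤ}

/-- A fixed point of `y` is not moved up by `x`. -/
theorem nofix (hm : Mono G X) (h : Rel x T y S p q) (c : FCond p q) {f : X}
    (hy : y • f = f) (hx : f < x • f) : False := by
  have hz : f < (x * y) • f := by rw [mul_smul, hy]; exact hx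
  have hT : f < T • f := hm.up_of_long (c.hq 1) c.h1 h.sT hz
  have hmf : (T * S⁻¹) • f = f := hm.fix_long (c.hq 2) h.sy hy
  have hST : S⁻¹ • f = T⁻¹ • f := by
    have h1 : S⁻¹ • f = T⁻¹ • (T * S⁻¹) • f := by rw [← mul_smul]; congr 1; group
    rw [h1, hmf]
  have hTf : T⁻¹ • f < f := by
    rw [← hm.lt T, smul_inv_smul]; exact hT
  have hyi : y⁻¹ • f = f := inv_fix hy
  have hT' : f < (y * T * y⁻¹) • f := by
    rw [mul_smul, mul_smul, hyi]
    have := (hm.lt y).mpr hT
    rwa [hy] at this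
  rcases c.alt with ⟨c0, -⟩ | c1
  · have hS : f < S • f := by
      have := (hm.lt S).mpr (hST ▸ hTf)
      rwa [smul_inv_smul] at this
    have hl := hm.slope_pt (n := 0) h.cx (c.hq 0) (by linarith) h.sx hx.le
    rw [zpow_zero, one_smul] at hl
    have : f < (y * T * y⁻¹ * S) • f := by
      rw [mul_smul]
      exact hT'.trans ((hm.lt _).mpr hS)
    exact absurd hl (not_le.mpr this)
  · have hTz := hm.slope_pt (n := 1) h.cT (c.hq 1) (by linarith) h.sT hT.le
    have hl := hm.slope_pt (n := 1) h.cx (c.hq 0) (by linarith [c.h0]) h.sx hx.le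
    rw [zpow_one] at hTz hl
    rw [mul_smul, hy] at hTz
    -- `l (S⁻¹ f) = T' f > f`
    have hlg : (y * T * y⁻¹ * S) • S⁻¹ • f = (y * T * y⁻¹) • f := by
      rw [mul_smul (y * T * y⁻¹), smul_inv_smul]
    have hlg2 : (y * T * y⁻¹) • f < T • f := by
      rw [← hlg, hST]
      exact lt_of_lt_of_le ((hm.lt _).mpr hTf) (hl.trans hTz)
    -- `x⁻¹ f ≤ l⁻¹ f`
    have hxl : x⁻¹ • f ≤ (y * T * y⁻¹ * S)⁻¹ • f := by
      have hc : Commute x (y * T * y⁻¹ * S) := h.cx
      generalize y * T * y⁻¹ * S = l at hc hl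
      rw [← hm.le l, smul_inv_smul, ← hm.le x, ← mul_smul, ← mul_smul, hc.eq]
      rw [mul_inv_cancel_right]; exact hl
    have step : ∀ u : X, x⁻¹ • f < u → x⁻¹ • f < S⁻¹ • u := by
      intro u hu
      have h1 : f < x • u := by rw [← hm.lt x⁻¹, inv_smul_smul]; exact hu
      have h2 : x • f < T • x • u := lt_of_le_of_lt hTz ((hm.lt T).mpr h1)
      have h3 : f < x⁻¹ • T • x • u := by rw [← hm.lt x, smul_inv_smul]; exact h2
      have h4 : S⁻¹ • u = (y * T * y⁻¹ * S)⁻¹ • x⁻¹ • T • x • u := by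
        rw [← mul_smul, ← mul_smul, ← mul_smul, ← h.T']; congr 1; group
      rw [h4]
      exact lt_of_le_of_lt hxl ((hm.lt _).mpr h3)
    have iter : ∀ k : ℕ, x⁻¹ • f < (S⁻¹) ^ k • f := by
      intro k
      induction k with
      | zero =>
        rw [pow_zero, one_smul, ← hm.lt x, smul_inv_smul]; exact hx
      | succ k ih =>
        rw [pow_succ', mul_smul]; exact step _ ih
    -- `D⁻¹ f < x⁻¹ f`
    have hD : (T⁻¹ * y⁻¹ * T * x)⁻¹ • f < x⁻¹ • f := by
      have h1 : (T⁻¹ * y⁻¹ * T * x)⁻¹ • f = x⁻¹ • T⁻¹ • (y * T * y⁻¹) • f := by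
        rw [mul_smul (y * T), hyi, ← mul_smul, ← mul_smul]; congr 1; group
      rw [h1, hm.lt, ← hm.lt T, smul_inv_smul]
      exact hlg2
    have hxf : x⁻¹ • f < f := by rw [← hm.lt x, smul_inv_smul]; exact hx
    have hDS := h.sS
    generalize T⁻¹ * y⁻¹ * T * x = D at hD hDS
    obtain ⟨k, hk⟩ := Int.eq_ofNat_of_zero_le (show 0 ≤ - p 3 by linarith [c.h3])
    obtain ⟨j, hj⟩ := Int.eq_ofNat_of_zero_le (show 0 ≤ q 3 by linarith [c.hq 3])
    have hj1 : 1 ≤ j := by have := c.hq 3; omega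
    have e1 : (S⁻¹) ^ k = (D⁻¹) ^ j := by
      rw [← zpow_natCast, ← zpow_natCast, inv_zpow, inv_zpow, ← hj, ← hk, zpow_neg, inv_inv]
      exact eq_inv_of_mul_eq_one_left hDS
    have h5 := iter k
    rw [e1] at h5
    obtain ⟨i, rfl⟩ := Nat.exists_eq_add_of_le' hj1
    have h6 : (D⁻¹) ^ (i + 1) • f ≤ D⁻¹ • f := by
      rw [pow_succ', mul_smul, hm.le]
      exact Mono.pow_le (X := Xᵒᵈ) hm.dual (g := D⁻¹) (f := f) (hD.trans hxf).le i
    exact absurd (lt_of_lt_of_le h5 h6) (not_lt.mpr hD.le)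

/-- A fixed point of `y` is a fixed point of `x`. -/
theorem fix_x (hm : Mono G X) (h : Rel x T y S p q) (c : FCond p q) {f : X}
    (hy : y • f = f) : x • f = f := by
  rcases lt_trichotomy (x • f) f with h1 | h1 | h1
  · exact (nofix (X := Xᵒᵈ) hm.dual h c (f := f) hy h1).elim
  · exact h1
  · exact (nofix hm h c hy h1).elim

theorem fix_y (hm : Mono G X) (h : Rel x T y S p q) (c : FCond p q) {f : X}
    (hx : x • f = f) : y • f = f :=
  fix_x hm h.swap c.swap hx

theorem fix_T (hm : Mono G X) (h : Rel x T y S p q) (c : FCond p q) {f : X}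
    (hx : x • f = f) : T • f = f := by
  refine hm.fix_mer c.h1 h.sT ?_
  rw [mul_smul, fix_y hm h c hx, hx]

theorem fix_S (hm : Mono G X) (h : Rel x T y S p q) (c : FCond p q) {f : X}
    (hx : x • f = f) : S • f = f := by
  have h1 := hm.fix_long (c.hq 0) h.sx hx
  have hy := fix_y hm h c hx
  have hT := fix_T hm h c hx
  have h2 : S • f = (y * T * y⁻¹)⁻¹ • (y * T * y⁻¹ * S) • f := by
    rw [← mul_smul]; congr 1; group
  rw [h2, h1]
  refine inv_fix ?_
  rw [mul_smul, mul_smul, inv_fix hy, hT, hy]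

end pt

section comp
variable {G X : Type*} [Group G] [CompleteLinearOrder X] [MulAction G X]

/-- The order automorphism given by a group element. -/
def iso (hm : Mono G X) (g : G) : X ≃o X where
  toEquiv := MulAction.toPerm g
  map_rel_iff' := hm.le g

theorem iso_apply (hm : Mono G X) (g : G) (v : X) : iso hm g v = g • v := rfl

variable {x T y S : G} {p q : Fin 4 → ℤ}

open Pool.Agent.W705.Borr in
/-- No point is moved up by `x`. -/
theorem not_up (hm : Mono G X) (h : Rel x T y S p q) (c : Cond p q) {s : X}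
    (hx : s < x • s) : False := by
  classical
  -- component of the complement of the set of fixed points
  set A : Set X := {f | f ≤ s ∧ x • f = f} with hA
  set B : Set X := {f | s ≤ f ∧ x • f = f} with hB
  set α := sSup A with hα
  set β := sInf B with hβ
  have xα : x • α = α := by
    apply le_antisymm
    · rw [← iso_apply hm, hα, (iso hm x).map_sSup]
      refine iSup₂_le fun v hv => ?_
      rw [iso_apply, hv.2]; exact le_sSup hv
    · refine sSup_le fun v hv => ?_
      rw [← hv.2]; exact (hm.le x).mpr (le_sSup hv)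
  have xβ : x • β = β := by
    apply le_antisymm
    · refine le_sInf fun v hv => ?_
      rw [← hv.2]; exact (hm.le x).mpr (sInf_le hv)
    · rw [← iso_apply hm, hβ, (iso hm x).map_sInf]
      refine le_iInf₂ fun v hv => ?_
      rw [iso_apply, hv.2]; exact sInf_le hv
  have hsx : x • s ≠ s := ne_of_gt hx
  have hαs : α < s := by
    refine lt_of_le_of_ne (sSup_le fun v hv => hv.1) ?_
    intro e; rw [e] at xα; exact hsx xα
  have hsβ : s < β := by
    refine lt_of_le_of_ne (le_sInf fun v hv => hv.1) ?_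
    intro e; rw [← e] at xβ; exact hsx xβ
  let J : Set X := {v | α < v ∧ v < β}
  have hJs : s ∈ J := ⟨hαs, hsβ⟩
  have hJx : ∀ v ∈ J, x • v ≠ v := by
    rintro v ⟨h1, h2⟩ e
    rcases le_total v s with h3 | h3
    · exact absurd (le_sSup (show v ∈ A from ⟨h3, e⟩)) (not_le.mpr h1)
    · exact absurd (sInf_le (show v ∈ B from ⟨h3, e⟩)) (not_le.mpr h2)
  have hJy : ∀ v ∈ J, y • v ≠ v := fun v hv e => hJx v hv (fix_x hm h c.fcond e)
  -- signs on `J`
  have pos : ∀ g : G, (∀ v ∈ J, g • v ≠ v) → s < g • s → ∀ v ∈ J, v < g • v := by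
    intro g hg hgs v hv
    by_contra hcon
    rw [not_lt] at hcon
    rcases le_total v s with h3 | h3
    · obtain ⟨t, t1, t2, t3⟩ := ivt (iso hm g) h3 hcon hgs
      exact hg t ⟨lt_of_lt_of_le hv.1 t1, t2.trans hsβ⟩ t3
    · obtain ⟨t, t1, t2, t3⟩ := ivt' (iso hm g) h3 hcon hgs
      exact hg t ⟨hαs.trans t1, lt_of_le_of_lt t2 hv.2⟩ t3
  have px := pos x hJx hx
  -- the stabilizer of the component
  let K : Subgroup G := MulAction.stabilizer G α ⊓ MulAction.stabilizer G β
  have mem : ∀ g : G, g • α = α → g • β = β → g ∈ K := fun g h1 h2 => ⟨h1, h2⟩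
  have stab : ∀ g : K, ∀ v ∈ J, (g : G) • v ∈ J := by
    rintro ⟨g, h1, h2⟩ v hv
    have h1' : g • α = α := h1
    have h2' : g • β = β := h2
    refine ⟨?_, ?_⟩
    · show α < g • v
      rw [← h1']; exact (hm.lt g).mpr hv.1
    · show g • v < β
      rw [← h2']; exact (hm.lt g).mpr hv.2
  let x' : K := ⟨x, mem x xα xβ⟩
  let y' : K := ⟨y, mem y (fix_y hm h c.fcond xα) (fix_y hm h c.fcond xβ)⟩
  let T' : K := ⟨T, mem T (fix_T hm h c.fcond xα) (fix_T hm h c.fcond xβ)⟩
  let S' : K := ⟨S, mem S (fix_S hm h c.fcond xα) (fix_S hm h c.fcond xβ)⟩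
  have h' : Rel x' T' y' S' p q :=
    ⟨Subtype.ext h.cT, Subtype.ext h.cx, Subtype.ext h.cy, Subtype.ext h.cS,
      Subtype.ext h.sx, Subtype.ext h.sT, Subtype.ext h.sy, Subtype.ext h.sS⟩
  letI : Preorder K :=
    { le := fun g k => ∀ v ∈ J, (g : G) • v ≤ (k : G) • v
      le_refl := fun g v _ => le_rfl
      le_trans := fun a b d h1 h2 v hv => (h1 v hv).trans (h2 v hv) }
  haveI : MulLeftMono K := ⟨fun a g k hgk v hv => by
    show ((a * g : K) : G) • v ≤ ((a * k : K) : G) • v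
    rw [Subgroup.coe_mul, Subgroup.coe_mul, mul_smul, mul_smul, hm.le]
    exact hgk v hv⟩
  haveI : MulRightMono K := ⟨fun a g k hgk v hv => by
    show ((g * a : K) : G) • v ≤ ((k * a : K) : G) • v
    rw [Subgroup.coe_mul, Subgroup.coe_mul, mul_smul, mul_smul]
    exact hgk _ (stab a v hv)⟩
  have hR : Root K := by
    intro g n hn hgn v hv
    have h1 : ((1 : K) : G) • v ≤ ((g ^ n : K) : G) • v := hgn v hv
    rw [Subgroup.coe_one, one_smul, Subgroup.coe_pow] at h1
    show ((1 : K) : G) • v ≤ (g : G) • v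
    rw [Subgroup.coe_one, one_smul]
    exact hm.root_le hn h1
  have hx1 : (1 : K) ≤ x' := fun v hv => by
    show ((1 : K) : G) • v ≤ x • v
    rw [Subgroup.coe_one, one_smul]; exact (px v hv).le
  have hx2 : ¬ x' ≤ (1 : K) := fun hle => by
    have h1 : x • s ≤ ((1 : K) : G) • s := hle s hJs
    rw [Subgroup.coe_one, one_smul] at h1
    exact absurd hx (not_lt.mpr h1)
  rcases lt_or_gt_of_ne (hJy s hJs) with hys | hys
  · -- `y` moves down
    have ny : ∀ v ∈ J, y • v < v := by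
      have hyi : ∀ v ∈ J, y⁻¹ • v ≠ v := by
        intro v hv e
        exact hJy v hv (by have := inv_fix e; rwa [inv_inv] at this)
      have h1 := pos y⁻¹ hyi (by rw [← hm.lt y, smul_inv_smul]; exact hys)
      intro v hv
      have := h1 v hv
      rwa [← hm.lt y, smul_inv_smul] at this
    have hy1 : y' ≤ (1 : K) := fun v hv => by
      show y • v ≤ ((1 : K) : G) • v
      rw [Subgroup.coe_one, one_smul]; exact (ny v hv).le
    exact updown hR h' c hx1 hy1 hx2
  · -- `y` moves up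
    have py := pos y hJy hys
    have hy1 : (1 : K) ≤ y' := fun v hv => by
      show ((1 : K) : G) • v ≤ y • v
      rw [Subgroup.coe_one, one_smul]; exact (py v hv).le
    have hy2 : ¬ y' ≤ (1 : K) := fun hle => by
      have h1 : y • s ≤ ((1 : K) : G) • s := hle s hJs
      rw [Subgroup.coe_one, one_smul] at h1
      exact absurd hys (not_lt.mpr h1)
    exact upup hR h' c hx1 hy1 hx2 hy2

/-- `x` acts trivially. -/
theorem x_fix (hm : Mono G X) (h : Rel x T y S p q) (c : Cond p q) (s : X) : x • s = s := by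
  rcases lt_trichotomy (x • s) s with h1 | h1 | h1
  · exact (not_up (X := Xᵒᵈ) hm.dual h c (s := s) h1).elim
  · exact h1
  · exact (not_up hm h c h1).elim

end comp

/-- The condition up to the symmetry that exchanges `x` and `y`. -/
def Cond' (p q : Fin 4 → ℤ) : Prop :=
  Cond p q ∨ Cond (fun i => ![p 2, p 1, p 0, p 3] i) (fun i => ![q 2, q 1, q 0, q 3] i)

theorem Cond'.fcond {p q : Fin 4 → ℤ} (c : Cond' p q) : FCond p q := by
  rcases c with c | c
  · exact c.fcond
  · have c' := c.fcond.swap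
    have e : ∀ r : Fin 4 → ℤ, (fun i => ![(fun i => ![r 2, r 1, r 0, r 3] i : Fin 4 → ℤ) 2,
        (fun i => ![r 2, r 1, r 0, r 3] i : Fin 4 → ℤ) 1,
        (fun i => ![r 2, r 1, r 0, r 3] i : Fin 4 → ℤ) 0,
        (fun i => ![r 2, r 1, r 0, r 3] i : Fin 4 → ℤ) 3] i) = r := by
      intro r; funext i; fin_cases i <;> rfl
    rw [e, e] at c'
    exact c'

theorem rel_fix {G X : Type*} [Group G] [CompleteLinearOrder X] [MulAction G X]
    {x T y S : G} {p q : Fin 4 → ℤ} (hm : Mono G X) (h : Rel x T y S p q) (c : Cond' p q)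
    (s : X) : x • s = s ∧ T • s = s ∧ y • s = s ∧ S • s = s := by
  have hx : x • s = s := by
    rcases c with c | c
    · exact x_fix hm h c s
    · exact fix_x hm h (Cond'.fcond (Or.inr c)) (x_fix hm h.swap c s)
  exact ⟨hx, fix_T hm h c.fcond hx, fix_y hm h c.fcond hx, fix_S hm h c.fcond hx⟩

end Pool.Agent.TH744.LS
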