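import Pool.Agent.TH744.LS.Dyn

set_option autoImplicit false

/-!
# Symmetries of the 4-chain link, and the theorem for left-ordered groups
-/

namespace Pool.Agent.TH744.LS

section group
variable {K : Type*} [Group K] {x T y S : K} {p q : Fin 4 → ℤ}

theorem conj_inv_rel {a b c : K} {m n : ℤ} (hc : Commute a b) (h : a ^ m * b ^ n = 1) :
    (c * a⁻¹ * c⁻¹) ^ m * (c * b⁻¹ * c⁻¹) ^ n = 1 := by
  rw [conj_zpow, conj_zpow, inv_zpow, inv_zpow]
  have h1 : (a ^ m)⁻¹ * (b ^ n)⁻¹ = 1 := by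
    rw [← mul_inv_rev, ← (hc.zpow_zpow m n).eq, h, inv_one]
  calc c * (a ^ m)⁻¹ * c⁻¹ * (c * (b ^ n)⁻¹ * c⁻¹) = c * ((a ^ m)⁻¹ * (b ^ n)⁻¹) * c⁻¹ := by
        group
    _ = 1 := by rw [h1]; group

theorem conj_rel {a b c : K} {m n : ℤ} (h : a ^ m * b ^ n = 1) :
    (c * a * c⁻¹) ^ m * (c * b * c⁻¹) ^ n = 1 := by
  rw [conj_zpow, conj_zpow]
  calc c * a ^ m * c⁻¹ * (c * b ^ n * c⁻¹) = c * (a ^ m * b ^ n) * c⁻¹ := by group
    _ = 1 := by rw [h]; group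

theorem conj_comm' {a b : K} (c : K) (h : Commute a b) :
    (c * a * c⁻¹) * (c * b * c⁻¹) = (c * b * c⁻¹) * (c * a * c⁻¹) := by
  calc (c * a * c⁻¹) * (c * b * c⁻¹) = c * (a * b) * c⁻¹ := by group
    _ = c * (b * a) * c⁻¹ := by rw [h.eq]
    _ = _ := by group

/-- The symmetry that rotates the chain by one step. -/
theorem Rel.rot (h : Rel x T y S p q) :
    Rel T (T * y * T⁻¹) (T * S⁻¹ * T⁻¹) (y⁻¹ * x * y) (fun i => ![p 1, p 2, p 3, p 0] i)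
      (fun i => ![q 1, q 2, q 3, q 0] i) := by
  have hT' := h.T'
  have lx' : T * S⁻¹ * T⁻¹ * (T * y * T⁻¹) * (T * S⁻¹ * T⁻¹)⁻¹ * (y⁻¹ * x * y) = x * y := by
    have h1 : y * (T * S⁻¹) = (T * S⁻¹) * y := h.cy
    have h2 : S⁻¹ * y * S = T⁻¹ * y * T := by
      calc S⁻¹ * y * S = T⁻¹ * ((T * S⁻¹) * y) * S := by group
        _ = T⁻¹ * (y * (T * S⁻¹)) * S := by rw [h1]
        _ = T⁻¹ * y * T := by group
    calc T * S⁻¹ * T⁻¹ * (T * y * T⁻¹) * (T * S⁻¹ * T⁻¹)⁻¹ * (y⁻¹ * x * y)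
        = T * (S⁻¹ * y * S) * T⁻¹ * (y⁻¹ * x * y) := by group
      _ = T * (T⁻¹ * y * T) * T⁻¹ * (y⁻¹ * x * y) := by rw [h2]
      _ = x * y := by group
  have lT' : T * (T * S⁻¹ * T⁻¹) = T * (T * S⁻¹) * T⁻¹ := by group
  have ly' : T * y * T⁻¹ * (y⁻¹ * x * y)⁻¹ = T * (T⁻¹ * y⁻¹ * T * x)⁻¹ * T⁻¹ := by
    have h1 : x⁻¹ * T⁻¹ * x = y * T⁻¹ * y⁻¹ := by
      calc x⁻¹ * T⁻¹ * x = (x⁻¹ * T * x)⁻¹ := by group
        _ = (y * T * y⁻¹)⁻¹ := by rw [hT']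
        _ = _ := by group
    calc T * y * T⁻¹ * (y⁻¹ * x * y)⁻¹ = T * (y * T⁻¹ * y⁻¹) * x⁻¹ * y := by group
      _ = T * (x⁻¹ * T⁻¹ * x) * x⁻¹ * y := by rw [h1]
      _ = _ := by group
  have lS' : (T * y * T⁻¹)⁻¹ * (T * S⁻¹ * T⁻¹)⁻¹ * (T * y * T⁻¹) * T
      = y⁻¹ * (y * T * y⁻¹ * S) * y⁻¹⁻¹ := by
    have e : T * y⁻¹ * S = y⁻¹ * (y * T * y⁻¹ * S) := by group
    calc (T * y * T⁻¹)⁻¹ * (T * S⁻¹ * T⁻¹)⁻¹ * (T * y * T⁻¹) * T = T * y⁻¹ * S * y := by group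
      _ = _ := by rw [e]; group
  have eS : T * S⁻¹ * T⁻¹ = T * S⁻¹ * T⁻¹ := rfl
  have ex : y⁻¹ * x * y = y⁻¹ * x * y⁻¹⁻¹ := by group
  have cS : Commute S (T⁻¹ * y⁻¹ * T * x) := h.cS
  refine ⟨?_, ?_, ?_, ?_, ?_, ?_, ?_, ?_⟩
  · rw [lT']; exact conj_comm' T h.cy
  · rw [lx']; exact h.cT
  · rw [ly']; exact conj_comm' T cS.inv_inv
  · rw [lS', ex]; exact conj_comm' y⁻¹ h.cx
  · rw [lx']; exact h.sT
  · rw [lT']; exact conj_rel h.sy
  · rw [ly']; exact conj_inv_rel cS h.sS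
  · rw [lS', ex]; exact conj_rel h.sx

end group

/-- The region of slopes (`r 0, r 2` and `r 1, r 3` belong to opposite components). -/
def Region (r : Fin 4 → ℚ) : Prop :=
  -1 ≤ r 0 ∧ -1 ≤ r 2 ∧ r 1 < 0 ∧ r 3 < 0 ∧
    ((0 ≤ r 0 ∧ 0 ≤ r 2) ∨
      (-1 ≤ max (r 1) (r 3) ∧
        (1 ≤ (r 0 + 1) * (r 2 + 1) ∨ -2 - (⌊max (r 0) (r 2)⌋ : ℚ) ≤ min (r 1) (r 3))))

section cond
variable {p q : Fin 4 → ℤ}

theorem le_slope {a p q : ℤ} (hq : 1 ≤ q) : (a : ℚ) ≤ (p : ℚ) / q ↔ a * q ≤ p := by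
  have : (0 : ℚ) < q := by exact_mod_cast (by omega : (0 : ℤ) < q)
  rw [le_div_iff₀ this]; exact_mod_cast Iff.rfl

theorem slope_neg {p q : ℤ} (hq : 1 ≤ q) : (p : ℚ) / q < 0 ↔ p < 0 := by
  have : (0 : ℚ) < q := by exact_mod_cast (by omega : (0 : ℤ) < q)
  rw [div_lt_iff₀ this, zero_mul]; exact_mod_cast Iff.rfl

theorem cond_of_region_aux (hq : ∀ i, 1 ≤ q i) (h0 : - q 0 ≤ p 0) (h2 : - q 2 ≤ p 2)
    (h1 : p 1 < 0) (h3 : p 3 < 0)
    (alt : (0 ≤ p 0 ∧ 0 ≤ p 2) ∨ (- q 1 ≤ p 1 ∧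
      (q 0 * q 2 ≤ (p 0 + q 0) * (p 2 + q 2) ∨
        -2 - (⌊max ((p 0 : ℚ) / q 0) ((p 2 : ℚ) / q 2)⌋ : ℚ) ≤ (p 3 : ℚ) / q 3))) :
    Cond' p q := by
  rcases alt with c | ⟨c1, c | c⟩
  · exact Or.inl ⟨hq, h0, h2, h1, h3, Or.inl c⟩
  · -- case B
    rcases le_or_gt 0 (p 2) with h | h
    · exact Or.inl ⟨hq, h0, h2, h1, h3, Or.inr ⟨c1, Or.inl ⟨h, c⟩⟩⟩
    · have h0' : 0 ≤ p 0 := by
        by_contra hc
        rw [not_le] at hc
        have a0 : 0 ≤ p 0 + q 0 := by linarith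
        have a1 : p 0 + q 0 < q 0 := by linarith
        have a2 : p 2 + q 2 < q 2 := by linarith
        have := mul_le_mul_of_nonneg_left a2.le a0
        have h5 : (p 0 + q 0) * q 2 < q 0 * q 2 :=
          mul_lt_mul_of_pos_right a1 (by linarith [hq 2])
        linarith
      refine Or.inr ⟨?_, h2, h0, h1, h3, Or.inr ⟨c1, Or.inl ⟨h0', ?_⟩⟩⟩
      · intro i; fin_cases i
        · exact hq 2
        · exact hq 1
        · exact hq 0
        · exact hq 3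
      · show q 2 * q 0 ≤ (p 2 + q 2) * (p 0 + q 0)
        linarith
  · -- case C
    have key : ∀ a b : ℤ, 1 ≤ b → - b ≤ a →
        -2 - (⌊(a : ℚ) / b⌋ : ℚ) ≤ (p 3 : ℚ) / q 3 →
        (- q 3 ≤ p 3 ∨ ∃ n : ℤ, 2 ≤ n ∧ (n - 2) * b ≤ a ∧ -(n * q 3) ≤ p 3) := by
      intro a b hb hab h
      have f1 : -1 ≤ ⌊(a : ℚ) / b⌋ := by
        rw [Int.le_floor]; push_cast
        have := (le_slope (a := -1) (p := a) hb).mpr (by linarith)
        exact_mod_cast this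
      have f2 : ⌊(a : ℚ) / b⌋ * b ≤ a := by
        rw [← le_slope hb]; exact Int.floor_le _
      generalize ⌊(a : ℚ) / b⌋ = n at *
      have h' : (-2 - n) * q 3 ≤ p 3 := by
        rw [← le_slope (hq 3)]; push_cast; exact h
      rcases eq_or_lt_of_le f1 with e | e
      · left; rw [← e] at h'; linarith
      · right
        refine ⟨n + 2, by omega, ?_, ?_⟩
        · have : n + 2 - 2 = n := by ring
          rw [this]; exact f2
        · linarith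
    rcases le_total ((p 0 : ℚ) / q 0) ((p 2 : ℚ) / q 2) with h | h
    · rw [max_eq_right h] at c
      exact Or.inl ⟨hq, h0, h2, h1, h3, Or.inr ⟨c1, Or.inr (key _ _ (hq 2) h2 c)⟩⟩
    · rw [max_eq_left h] at c
      refine Or.inr ⟨?_, h2, h0, h1, h3, Or.inr ⟨c1, Or.inr (key _ _ (hq 0) h0 c)⟩⟩
      intro i; fin_cases i
      · exact hq 2
      · exact hq 1
      · exact hq 0
      · exact hq 3

/-- Up to the symmetry that exchanges the components `1` and `3`, the slopes in the region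
satisfy the conditions used in the proof. -/
theorem cond_of_region (hq : ∀ i, 1 ≤ q i) (h : Region (fun i => (p i : ℚ) / q i)) :
    Cond' p q ∨ Cond' (fun i => ![p 0, p 3, p 2, p 1] i) (fun i => ![q 0, q 3, q 2, q 1] i) := by
  obtain ⟨h0, h2, h1, h3, alt⟩ := h
  have g0 : - q 0 ≤ p 0 := by
    have := (le_slope (a := -1) (hq 0)).mp (by exact_mod_cast h0); linarith
  have g2 : - q 2 ≤ p 2 := by
    have := (le_slope (a := -1) (hq 2)).mp (by exact_mod_cast h2); linarith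
  have g1 : p 1 < 0 := (slope_neg (hq 1)).mp h1
  have g3 : p 3 < 0 := (slope_neg (hq 3)).mp h3
  have nonneg : ∀ i, 0 ≤ (p i : ℚ) / q i → 0 ≤ p i := by
    intro i hi
    have := (le_slope (a := 0) (hq i)).mp (by exact_mod_cast hi); linarith
  have gB : 1 ≤ ((p 0 : ℚ) / q 0 + 1) * ((p 2 : ℚ) / q 2 + 1) →
      q 0 * q 2 ≤ (p 0 + q 0) * (p 2 + q 2) := by
    intro hB
    have a0 : (0 : ℚ) < q 0 := by exact_mod_cast (by have := hq 0; omega : (0 : ℤ) < q 0)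
    have a2 : (0 : ℚ) < q 2 := by exact_mod_cast (by have := hq 2; omega : (0 : ℤ) < q 2)
    have e : ((p 0 : ℚ) / q 0 + 1) * ((p 2 : ℚ) / q 2 + 1)
        = ((p 0 + q 0) * (p 2 + q 2)) / (q 0 * q 2) := by field_simp
    rw [e, le_div_iff₀ (by positivity), one_mul] at hB
    exact_mod_cast hB
  have hq' : ∀ i, 1 ≤ (fun i => ![q 0, q 3, q 2, q 1] i : Fin 4 → ℤ) i := by
    intro i; fin_cases i
    · exact hq 0
    · exact hq 3
    · exact hq 2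
    · exact hq 1
  rcases alt with ⟨c0, c2⟩ | ⟨hm, hBC⟩
  · exact Or.inl (Or.inl ⟨hq, g0, g2, g1, g3, Or.inl ⟨nonneg 0 c0, nonneg 2 c2⟩⟩)
  · rcases le_total ((p 3 : ℚ) / q 3) ((p 1 : ℚ) / q 1) with h | h
    · left
      have hm' : -1 ≤ (p 1 : ℚ) / q 1 := by
        have hm2 : -1 ≤ max ((p 1 : ℚ) / q 1) ((p 3 : ℚ) / q 3) := hm
        rwa [max_eq_left h] at hm2
      have c1 : - q 1 ≤ p 1 := by
        have := (le_slope (a := -1) (hq 1)).mp (by exact_mod_cast hm'); linarith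
      refine cond_of_region_aux hq g0 g2 g1 g3 (Or.inr ⟨c1, ?_⟩)
      rcases hBC with hB | hC
      · exact Or.inl (gB hB)
      · right
        have hC2 : -2 - (⌊max ((p 0 : ℚ) / q 0) ((p 2 : ℚ) / q 2)⌋ : ℚ)
          ≤ min ((p 1 : ℚ) / q 1) ((p 3 : ℚ) / q 3) := hC
        exact hC2.trans (min_le_right _ _)
    · right
      have hm' : -1 ≤ (p 3 : ℚ) / q 3 := by
        have hm2 : -1 ≤ max ((p 1 : ℚ) / q 1) ((p 3 : ℚ) / q 3) := hm
        rwa [max_eq_right h] at hm2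
      have c1 : - q 3 ≤ p 3 := by
        have := (le_slope (a := -1) (hq 3)).mp (by exact_mod_cast hm'); linarith
      refine cond_of_region_aux (p := fun i => ![p 0, p 3, p 2, p 1] i)
        (q := fun i => ![q 0, q 3, q 2, q 1] i) hq' g0 g2 g3 g1 (Or.inr ⟨c1, ?_⟩)
      rcases hBC with hB | hC
      · exact Or.inl (gB hB)
      · right
        have hC2 : -2 - (⌊max ((p 0 : ℚ) / q 0) ((p 2 : ℚ) / q 2)⌋ : ℚ)
          ≤ min ((p 1 : ℚ) / q 1) ((p 3 : ℚ) / q 3) := hC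
        exact hC2.trans (min_le_left _ _)

end cond

section lo
variable {H : Type*} [Group H]

open Pool.Agent.W705.Borr in
/-- In a left-ordered group the relations with slopes as in `Cond'` force triviality. -/
theorem rel_trivial_cond [LinearOrder H] (hinv : ∀ a b c : H, a ≤ b ↔ c * a ≤ c * b)
    {x T y S : H} {p q : Fin 4 → ℤ} (c : Cond' p q) (h : Rel x T y S p q) :
    x = 1 ∧ T = 1 ∧ y = 1 ∧ S = 1 := by
  letI : MulAction H (LowerSet H) :=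
    { smul := fun g v => act hinv g v
      one_smul := fun v => act_one hinv v
      mul_smul := fun g k v => act_mul hinv g k v }
  have hm : Mono H (LowerSet H) := fun g u v huv => by
    show act hinv g u < act hinv g v
    exact (act hinv g).lt_iff_lt.mpr huv
  have key := fun s => rel_fix hm h c s
  exact ⟨eq_one_of_act hinv x fun s => (key s).1, eq_one_of_act hinv T fun s => (key s).2.1,
    eq_one_of_act hinv y fun s => (key s).2.2.1, eq_one_of_act hinv S fun s => (key s).2.2.2⟩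

theorem rot_triv {x T y S : H}
    (h : T = 1 ∧ T * y * T⁻¹ = 1 ∧ T * S⁻¹ * T⁻¹ = 1 ∧ y⁻¹ * x * y = 1) :
    x = 1 ∧ T = 1 ∧ y = 1 ∧ S = 1 := by
  obtain ⟨h1, h2, h3, h4⟩ := h
  subst h1
  have hy : y = 1 := by simpa using h2
  subst hy
  exact ⟨by simpa using h4, rfl, rfl, by simpa using h3⟩

theorem swap_triv {x T y S : H}
    (h : y = 1 ∧ y * T * y⁻¹ = 1 ∧ x = 1 ∧ S⁻¹ = 1) :
    x = 1 ∧ T = 1 ∧ y = 1 ∧ S = 1 := by
  obtain ⟨h1, h2, h3, h4⟩ := h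
  subst h1
  exact ⟨h3, by simpa using h2, rfl, by simpa using h4⟩

theorem rel_trivial_region [LinearOrder H] (hinv : ∀ a b c : H, a ≤ b ↔ c * a ≤ c * b)
    {x T y S : H} {p q : Fin 4 → ℤ} (hq : ∀ i, 1 ≤ q i)
    (hr : Region (fun i => (p i : ℚ) / q i)) (h : Rel x T y S p q) :
    x = 1 ∧ T = 1 ∧ y = 1 ∧ S = 1 := by
  rcases cond_of_region hq hr with c | c
  · exact rel_trivial_cond hinv c h
  · exact rot_triv (rot_triv (swap_triv (rel_trivial_cond hinv c h.rot.rot.swap)))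

/-- The region of slopes, up to a rotation of the chain. -/
theorem rel_trivial [LinearOrder H] (hinv : ∀ a b c : H, a ≤ b ↔ c * a ≤ c * b)
    {x T y S : H} {p q : Fin 4 → ℤ} (hq : ∀ i, 1 ≤ q i)
    (hr : Region (fun i => (p i : ℚ) / q i) ∨ Region (fun i => (p (i + 1) : ℚ) / q (i + 1)))
    (h : Rel x T y S p q) : x = 1 ∧ T = 1 ∧ y = 1 ∧ S = 1 := by
  rcases hr with hr | hr
  · exact rel_trivial_region hinv hq hr h
  · have e : ∀ r : Fin 4 → ℤ, (fun i => ![r 1, r 2, r 3, r 0] i) = fun i => r (i + 1) := by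
      intro r; funext i; fin_cases i <;> rfl
    have h' := h.rot
    rw [e, e] at h'
    exact rot_triv (rel_trivial_region hinv (fun i => hq (i + 1)) hr h')

end lo

end Pool.Agent.TH744.LS
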